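import Mathlib

namespace Pool.Agent.KS6_44.Leo

open Module

variable {K : Type*} [Field K] {V : Type*} [AddCommGroup V] [Module K V]

/-- Irreducible tridiagonal square matrices. -/
def IrrTri {n : ℕ} (M : Matrix (Fin n) (Fin n) K) : Prop :=
  (∀ i j : Fin n, (i : ℕ) + 1 < j ∨ (j : ℕ) + 1 < i → M i j = 0) ∧
  (∀ i j : Fin n, (i : ℕ) + 1 = j ∨ (j : ℕ) + 1 = i → M i j ≠ 0)

/-- Some basis of `V` makes `A` diagonal and `B` irreducible tridiagonal. -/
def Half (A B : End K V) : Prop :=
  ∃ (n : ℕ) (b : Basis (Fin n) K V),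
    (LinearMap.toMatrix b b A).IsDiag ∧ IrrTri (LinearMap.toMatrix b b B)

/-- Some basis of `V` makes `A` diagonal and both `B` and `C` irreducible tridiagonal. -/
def Half₂ (A B C : End K V) : Prop :=
  ∃ (n : ℕ) (b : Basis (Fin n) K V),
    (LinearMap.toMatrix b b A).IsDiag ∧ IrrTri (LinearMap.toMatrix b b B) ∧
      IrrTri (LinearMap.toMatrix b b C)

def LeonardPair (A B : End K V) : Prop := Half A B ∧ Half B A

def LeonardTriple (A B C : End K V) : Prop := Half₂ A B C ∧ Half₂ B A C ∧ Half₂ C A B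

/-! ### conjugation -/

theorem Half.conj {A B A' B' : End K V} (D : V ≃ₗ[K] V)
    (hA : ∀ v, A' (D v) = D (A v)) (hB : ∀ v, B' (D v) = D (B v)) (h : Half A B) :
    Half A' B' := by
  obtain ⟨n, b, h1, h2⟩ := h
  refine ⟨n, b.map D, ?_, ?_⟩
  · have : LinearMap.toMatrix (b.map D) (b.map D) A' = LinearMap.toMatrix b b A := by
      ext i j
      simp [LinearMap.toMatrix_apply, hA]
    rw [this]; exact h1
  · have : LinearMap.toMatrix (b.map D) (b.map D) B' = LinearMap.toMatrix b b B := by
      ext i j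
      simp [LinearMap.toMatrix_apply, hB]
    rw [this]; exact h2

theorem Half₂.conj {A B C A' B' C' : End K V} (D : V ≃ₗ[K] V)
    (hA : ∀ v, A' (D v) = D (A v)) (hB : ∀ v, B' (D v) = D (B v))
    (hC : ∀ v, C' (D v) = D (C v)) (h : Half₂ A B C) : Half₂ A' B' C' := by
  obtain ⟨n, b, h1, h2, h3⟩ := h
  have key : ∀ S S' : End K V, (∀ v, S' (D v) = D (S v)) →
      LinearMap.toMatrix (b.map D) (b.map D) S' = LinearMap.toMatrix b b S := by
    intro S S' hS
    ext i j
    simp [LinearMap.toMatrix_apply, hS]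
  refine ⟨n, b.map D, ?_, ?_, ?_⟩
  · rw [key A A' hA]; exact h1
  · rw [key B B' hB]; exact h2
  · rw [key C C' hC]; exact h3

/-! ### a chain of eigenvectors -/

/-- A chain of eigenvectors with distinct eigenvalues spanning the space. -/
structure Chain (n : ℕ) (x : End K V) (v : ℕ → V) (θ : ℕ → K) where
  dim : finrank K V = n
  eig : ∀ j, x (v j) = θ j • v j
  ne : ∀ j, j < n → v j ≠ 0
  inj : ∀ i j, i < n → j < n → θ i = θ j → i = j

namespace Chain

variable {n : ℕ} {x : End K V} {v : ℕ → V} {θ : ℕ → K}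

theorem li (h : Chain n x v θ) : LinearIndependent K (fun i : Fin n => v i) := by
  apply Module.End.eigenvectors_linearIndependent' x (fun i : Fin n => θ i)
  · intro i j hij
    exact Fin.ext (h.inj i j i.2 j.2 hij)
  · intro i
    refine ⟨?_, h.ne i i.2⟩
    rw [Module.End.mem_eigenspace_iff]
    exact h.eig i

/-- the basis given by a chain -/
noncomputable def basis (h : Chain n x v θ) (hn : 0 < n) : Basis (Fin n) K V :=
  haveI : Nonempty (Fin n) := ⟨⟨0, hn⟩⟩
  basisOfLinearIndependentOfCardEqFinrank h.li (by rw [Fintype.card_fin, h.dim])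

theorem basis_apply (h : Chain n x v θ) (hn : 0 < n) (i : Fin n) : h.basis hn i = v i := by
  have : Nonempty (Fin n) := ⟨⟨0, hn⟩⟩
  simp [basis]

theorem coord (h : Chain n x v θ) (hn : 0 < n) {u : V} {μ : K} (hu : x u = μ • u) (i : Fin n)
    (hi : θ i ≠ μ) : (h.basis hn).repr u i = 0 := by
  have e1 : (h.basis hn).repr (x u) i = θ i * (h.basis hn).repr u i := by
    have key : ∀ w : V, (h.basis hn).repr (x w) i = θ i * (h.basis hn).repr w i := by
      intro w
      have e : ((h.basis hn).coord i) ∘ₗ x = θ i • (h.basis hn).coord i := by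
        apply (h.basis hn).ext
        intro j
        simp only [LinearMap.comp_apply, LinearMap.smul_apply, Basis.coord_apply]
        rw [h.basis_apply, h.eig, map_smul, ← h.basis_apply hn j, Basis.repr_self]
        by_cases hij : j = i
        · subst hij; simp
        · simp [Finsupp.single_apply, hij]
      have := congrArg (fun f => f w) e
      simpa using this
    exact key u
  rw [hu, map_smul] at e1
  simp only [Finsupp.smul_apply, smul_eq_mul] at e1
  have : (μ - θ i) * (h.basis hn).repr u i = 0 := by rw [sub_mul, e1, sub_self]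
  rcases mul_eq_zero.mp this with h1 | h1
  · exact absurd (sub_eq_zero.mp h1).symm hi
  · exact h1

theorem eq_zero (h : Chain n x v θ) (hn : 0 < n) {u : V} {μ : K} (hu : x u = μ • u)
    (hi : ∀ i, i < n → θ i ≠ μ) : u = 0 := by
  apply (h.basis hn).ext_elem
  intro i
  rw [h.coord hn hu i (hi i i.2)]; simp

theorem eq_smul (h : Chain n x v θ) (hn : 0 < n) {u : V} {k : ℕ} (hk : k < n)
    (hu : x u = θ k • u) : ∃ c : K, u = c • v k := by
  refine ⟨(h.basis hn).repr u ⟨k, hk⟩, ?_⟩
  apply (h.basis hn).ext_elem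
  intro i
  by_cases hik : i = ⟨k, hk⟩
  · subst hik
    have : v k = (h.basis hn) ⟨k, hk⟩ := (h.basis_apply hn ⟨k, hk⟩).symm
    rw [this]; simp
  · have h1 : θ i ≠ θ k := fun he => hik (Fin.ext (h.inj _ _ i.2 hk he))
    rw [h.coord hn hu i h1]
    have : v k = (h.basis hn) ⟨k, hk⟩ := (h.basis_apply hn ⟨k, hk⟩).symm
    rw [this]
    simp [Finsupp.single_apply, Ne.symm hik]

theorem exists_smul (h : Chain n x v θ) (hn : 0 < n) {u : V} (hu0 : u ≠ 0) {μ : K}
    (hu : x u = μ • u) : ∃ k, k < n ∧ μ = θ k ∧ ∃ c : K, u = c • v k := by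
  by_contra hcon
  push Not at hcon
  apply hu0
  apply h.eq_zero hn hu
  intro i hi he
  obtain ⟨c, hc⟩ := h.eq_smul hn hi (by rw [he]; exact hu)
  exact hcon i hi he.symm c hc

theorem isDiag (h : Chain n x v θ) (hn : 0 < n) :
    (LinearMap.toMatrix (h.basis hn) (h.basis hn) x).IsDiag := by
  intro i j hij
  rw [LinearMap.toMatrix_apply, h.basis_apply, h.eig, map_smul, ← h.basis_apply hn j,
    Basis.repr_self]
  simp [Finsupp.single_apply, Ne.symm hij]

theorem irrTri (h : Chain n x v θ) (hn : 0 < n) (T : End K V) (α β γ : ℕ → K)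
    (h0 : ∀ j, j + 1 < n → T (v j) = α j • v (j + 1) + β j • v j + γ j • v (j - 1))
    (h1 : T (v (n - 1)) = β (n - 1) • v (n - 1) + γ (n - 1) • v (n - 1 - 1))
    (hγ0 : γ 0 = 0) (hα : ∀ j, j + 1 < n → α j ≠ 0) (hγ : ∀ j, 0 < j → j < n → γ j ≠ 0) :
    IrrTri (LinearMap.toMatrix (h.basis hn) (h.basis hn) T) := by
  have hb : ∀ j : ℕ, ∀ hj : j < n, v j = h.basis hn ⟨j, hj⟩ := fun j hj =>
    (h.basis_apply hn ⟨j, hj⟩).symm
  have key : ∀ i j : Fin n, LinearMap.toMatrix (h.basis hn) (h.basis hn) T i j =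
      (if (j : ℕ) + 1 = i then α j else 0) + (if j = i then β j else 0) +
        (if (j : ℕ) - 1 = i then γ j else 0) := by
    intro i j
    rw [LinearMap.toMatrix_apply, h.basis_apply]
    have hj1 : (j : ℕ) - 1 < n := lt_of_le_of_lt (Nat.sub_le _ _) j.2
    by_cases hj : (j : ℕ) + 1 < n
    · rw [h0 j hj, hb (j + 1) hj, hb j j.2, hb (j - 1) hj1]
      simp only [map_add, map_smul, Basis.repr_self, Finsupp.add_apply, Finsupp.smul_apply,
        Finsupp.single_apply, smul_eq_mul, Fin.ext_iff, mul_ite, mul_one, mul_zero]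
    · have hjn : (j : ℕ) = n - 1 := by have := j.2; omega
      rw [hjn, h1]
      have hn1 : n - 1 < n := by omega
      have hn2 : n - 1 - 1 < n := by omega
      rw [hb (n - 1) hn1, hb (n - 1 - 1) hn2]
      have hi := i.2
      simp only [map_add, map_smul, Basis.repr_self, Finsupp.add_apply, Finsupp.smul_apply,
        Finsupp.single_apply, smul_eq_mul, Fin.ext_iff, mul_ite, mul_one, mul_zero, hjn]
      rw [if_neg (show ¬ (n - 1 + 1 = (i : ℕ)) by omega), zero_add]
  constructor
  · rintro i j (hij | hij)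
    · rw [key, if_neg (by omega), if_neg (by intro he; rw [he] at hij; omega), if_neg (by omega)]
      simp
    · rw [key, if_neg (by omega), if_neg (by intro he; rw [he] at hij; omega), if_neg (by omega)]
      simp
  · rintro i j (hij | hij)
    · rw [key, if_neg (by omega), if_neg (by intro he; rw [he] at hij; omega), if_pos (by omega)]
      simpa using hγ j (by omega) j.2
    · rw [key, if_pos (by omega), if_neg (by intro he; rw [he] at hij; omega)]
      by_cases hj0 : (j : ℕ) = 0
      · rw [hj0, hγ0]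
        have := hα 0 (by have := i.2; omega)
        simpa using this
      · rw [if_neg (by omega)]
        simpa using hα j (by have := i.2; omega)

end Chain

end Pool.Agent.KS6_44.Leo
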