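import Pool.Agent.KS6_44.Leo

namespace Pool.Agent.KS6_44.Leo

open Module

variable {K : Type*} [Field K] {V : Type*} [AddCommGroup V] [Module K V]

/-- The relations of the anticommutator spin algebra. -/
structure Spin (x y z : End K V) (N : K) : Prop where
  xy : ∀ v, x (y v) = (2 : K) • z v - y (x v)
  xz : ∀ v, x (z v) = (2 : K) • y v - z (x v)
  yz : ∀ v, y (z v) = (2 : K) • x v - z (y v)
  cas : ∀ v, y (y v) + z (z v) = (N * (N + 2)) • v - x (x v)

namespace Spin

variable {x y z : End K V} {N : K}

theorem xP (h : Spin x y z N) {v : V} {θ : K} (hv : x v = θ • v) :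
    x ((y + z) v) = (2 - θ) • (y + z) v := by
  simp only [LinearMap.add_apply, map_add, h.xy, h.xz, hv, map_smul]
  module

theorem xQ (h : Spin x y z N) {v : V} {θ : K} (hv : x v = θ • v) :
    x ((y - z) v) = (-2 - θ) • (y - z) v := by
  simp only [LinearMap.sub_apply, map_sub, h.xy, h.xz, hv, map_smul]
  module

theorem PP (h : Spin x y z N) {v : V} {θ : K} (hv : x v = θ • v) :
    (y + z) ((y + z) v) = ((N + θ) * (N + 2 - θ)) • v := by
  have e := h.cas v
  rw [hv, map_smul, hv] at e
  have e2 : (y + z) ((y + z) v) = (y (y v) + z (z v)) + (2 : K) • x v := by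
    simp only [LinearMap.add_apply, map_add, h.yz]
    module
  rw [e2, e, hv]
  module

theorem QQ (h : Spin x y z N) {v : V} {θ : K} (hv : x v = θ • v) :
    (y - z) ((y - z) v) = ((N - θ) * (N + 2 + θ)) • v := by
  have e := h.cas v
  rw [hv, map_smul, hv] at e
  have e2 : (y - z) ((y - z) v) = (y (y v) + z (z v)) - (2 : K) • x v := by
    simp only [LinearMap.sub_apply, map_sub, h.yz]
    module
  rw [e2, e, hv]
  module

/-- the zigzag chain -/
def zig (y z : End K V) (v0 : V) : ℕ → V
  | 0 => v0
  | (j + 1) => if Even j then (y + z) (zig y z v0 j) else (y - z) (zig y z v0 j)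

/-- the ladder chain -/
def lad (y z : End K V) (v0 : V) : ℕ → V
  | 0 => v0
  | (a + 1) => (y - z) ((y + z) (lad y z v0 a))

theorem zig_eig (h : Spin x y z N) {v0 : V} (h0 : x v0 = N • v0) (j : ℕ) :
    x (zig y z v0 j) = ((-1) ^ j * (N - 2 * j)) • zig y z v0 j := by
  induction j with
  | zero => simp [zig, h0]
  | succ j ih =>
    rw [zig]
    split_ifs with hj
    · rw [h.xP ih, pow_succ, hj.neg_one_pow]
      congr 1; push_cast; ring
    · rw [h.xQ ih, pow_succ, (Nat.not_even_iff_odd.mp hj).neg_one_pow]
      congr 1; push_cast; ring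

theorem lad_eig (h : Spin x y z N) {v0 : V} (h0 : x v0 = N • v0) (a : ℕ) :
    x (lad y z v0 a) = (N - 4 * a) • lad y z v0 a := by
  induction a with
  | zero => simp [lad, h0]
  | succ a ih =>
    rw [lad, h.xQ (h.xP ih)]
    congr 1; push_cast; ring

/-- going back along the zigzag -/
theorem zig_back (h : Spin x y z N) {v0 : V} (h0 : x v0 = N • v0) (j : ℕ) :
    (if Even j then (y + z) (zig y z v0 (j + 1)) else (y - z) (zig y z v0 (j + 1))) =
      (4 * (N - j) * (j + 1)) • zig y z v0 j := by
  rw [zig]
  split_ifs with hj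
  · rw [h.PP (h.zig_eig h0 j), hj.neg_one_pow]
    congr 1; push_cast; ring
  · rw [h.QQ (h.zig_eig h0 j), (Nat.not_even_iff_odd.mp hj).neg_one_pow]
    congr 1; push_cast; ring

/-- going back along the ladder -/
theorem lad_back (h : Spin x y z N) {v0 : V} (h0 : x v0 = N • v0) (a : ℕ) :
    (y + z) ((y - z) (lad y z v0 (a + 1))) =
      (32 * (N - 1 - 2 * a) * (1 + a) * (N - 2 * a) * (2 * a + 1)) • lad y z v0 a := by
  have e1 := h.lad_eig h0 a
  have e2 := h.xP e1
  rw [lad, h.QQ e2, map_smul, h.PP e1, smul_smul]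
  congr 1; push_cast; ring

end Spin

section chain

variable {x y z : End K V} {d : ℕ}

variable (hK : ∀ m : ℕ, 1 ≤ m → m ≤ 2 * d + 1 → (m : K) ≠ 0) (hd : 2 ≤ d)
  (h : Spin x y z ((2 * d + 1 : ℕ) : K)) {v0 : V} (h0 : x v0 = ((2 * d + 1 : ℕ) : K) • v0)
  (hv0 : v0 ≠ 0)

include hK hd

theorem two_ne : (2 : K) ≠ 0 := by
  have := hK 2 (by norm_num) (by omega)
  simpa using this

theorem three_ne : (3 : K) ≠ 0 := by
  have := hK 3 (by norm_num) (by omega)
  simpa using this

omit hd in
theorem sub_ne (i j : ℕ) (hi : i ≤ 2 * d + 1) (hj : j ≤ 2 * d + 1) (hij : i ≠ j) :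
    (i : K) - j ≠ 0 := by
  rcases Nat.lt_or_ge i j with h1 | h1
  · have := hK (j - i) (by omega) (by omega)
    rw [Nat.cast_sub h1.le] at this
    intro h2; apply this; rw [← neg_sub, h2, neg_zero]
  · have := hK (i - j) (by omega) (by omega)
    rw [Nat.cast_sub h1] at this
    exact this

include h h0 hv0

theorem zig_ne (j : ℕ) (hj : j ≤ d) : Spin.zig y z v0 j ≠ 0 := by
  induction j with
  | zero => simpa [Spin.zig] using hv0
  | succ j ih =>
    intro hz
    have e := h.zig_back h0 j
    rw [hz] at e
    have e' : (4 * (((2 * d + 1 : ℕ) : K) - j) * (j + 1)) • Spin.zig y z v0 j = 0 := by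
      rw [← e]; split_ifs <;> simp
    rcases smul_eq_zero.mp e' with h1 | h1
    · have h2 := two_ne hK hd
      have h3 : ((2 * d + 1 : ℕ) : K) - j ≠ 0 :=
        sub_ne hK (2 * d + 1) j le_rfl (by omega) (by omega)
      have h4 : ((j : K) + 1) ≠ 0 := by
        have := hK (j + 1) (by omega) (by omega)
        simpa using this
      have h5 : (4 : K) ≠ 0 := by
        have : (4 : K) = 2 * 2 := by norm_num
        rw [this]; exact mul_ne_zero h2 h2
      exact mul_ne_zero (mul_ne_zero h5 h3) h4 h1
    · exact ih (by omega) h1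

theorem lad_ne (a : ℕ) (ha : a ≤ d) : Spin.lad y z v0 a ≠ 0 := by
  induction a with
  | zero => simpa [Spin.lad] using hv0
  | succ a ih =>
    intro hz
    have e := h.lad_back h0 a
    rw [hz] at e
    simp only [map_zero] at e
    rcases smul_eq_zero.mp e.symm with h1 | h1
    · have h2 := two_ne hK hd
      have h3 : ((2 * d + 1 : ℕ) : K) - 1 - 2 * a ≠ 0 := by
        have := sub_ne hK (2 * d) (2 * a) (by omega) (by omega) (by omega)
        intro h9; apply this; rw [← h9]; push_cast; ring
      have h4 : (1 + (a : K)) ≠ 0 := by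
        have := hK (1 + a) (by omega) (by omega)
        simpa using this
      have h5 : ((2 * d + 1 : ℕ) : K) - 2 * a ≠ 0 := by
        have := sub_ne hK (2 * d + 1) (2 * a) (by omega) (by omega) (by omega)
        intro h9; apply this; rw [← h9]; push_cast; ring
      have h6 : (2 * (a : K) + 1) ≠ 0 := by
        have := hK (2 * a + 1) (by omega) (by omega)
        simpa using this
      have h7 : (32 : K) ≠ 0 := by
        have : (32 : K) = 2 ^ 5 := by norm_num
        rw [this]; exact pow_ne_zero _ h2
      exact mul_ne_zero (mul_ne_zero (mul_ne_zero (mul_ne_zero h7 h3) h4) h5) h6 h1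
    · exact ih (by omega) h1

theorem zig_chain (hdim : finrank K V = d + 1) :
    Chain (d + 1) x (Spin.zig y z v0)
      (fun j => (-1) ^ j * (((2 * d + 1 : ℕ) : K) - 2 * j)) where
  dim := hdim
  eig := h.zig_eig h0
  ne := fun j hj => zig_ne hK hd h h0 hv0 j (by omega)
  inj := by
    intro i j hi hj hij
    by_contra hne
    have h2 := two_ne hK hd
    rcases Nat.even_or_odd i with hi' | hi' <;> rcases Nat.even_or_odd j with hj' | hj' <;>
      simp only [hi'.neg_one_pow, hj'.neg_one_pow] at hij
    · have : (2 : K) * ((j : K) - i) = 0 := by linear_combination hij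
      rcases mul_eq_zero.mp this with h3 | h3
      · exact h2 h3
      · exact sub_ne hK j i (by omega) (by omega) (Ne.symm hne) h3
    · have : (2 : K) * (((2 * d + 1 : ℕ) : K) - ((i + j : ℕ) : K)) = 0 := by
        push_cast at hij ⊢
        linear_combination hij
      rcases mul_eq_zero.mp this with h3 | h3
      · exact h2 h3
      · exact sub_ne hK (2 * d + 1) (i + j) (by omega) (by omega) (by omega) h3
    · have : (2 : K) * (((2 * d + 1 : ℕ) : K) - ((i + j : ℕ) : K)) = 0 := by
        push_cast at hij ⊢
        linear_combination - hij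
      rcases mul_eq_zero.mp this with h3 | h3
      · exact h2 h3
      · exact sub_ne hK (2 * d + 1) (i + j) (by omega) (by omega) (by omega) h3
    · have : (2 : K) * ((i : K) - j) = 0 := by linear_combination hij
      rcases mul_eq_zero.mp this with h3 | h3
      · exact h2 h3
      · exact sub_ne hK i j (by omega) (by omega) hne h3

theorem lad_chain (hdim : finrank K V = d + 1) :
    Chain (d + 1) x (Spin.lad y z v0)
      (fun a => ((2 * d + 1 : ℕ) : K) - 4 * a) where
  dim := hdim
  eig := h.lad_eig h0
  ne := fun j hj => lad_ne hK hd h h0 hv0 j (by omega)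
  inj := by
    intro i j hi hj hij
    by_contra hne
    have h2 := two_ne hK hd
    have : (2 : K) * 2 * ((j : K) - i) = 0 := by linear_combination hij
    rcases mul_eq_zero.mp this with h3 | h3
    · exact mul_ne_zero h2 h2 h3
    · exact sub_ne hK j i (by omega) (by omega) (Ne.symm hne) h3

/-- the operator `y - z` kills the top vector -/
theorem Q_top (hdim : finrank K V = d + 1) : (y - z) v0 = 0 := by
  have hc := zig_chain hK hd h h0 hv0 hdim
  have h2 := two_ne hK hd
  apply hc.eq_zero (by omega) (h.xQ h0)
  intro i hi he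
  rcases Nat.even_or_odd i with hi' | hi'
  · simp only [hi'.neg_one_pow] at he
    have : (2 : K) * (((2 * d + 1 : ℕ) : K) - i + 1) = 0 := by linear_combination he
    rcases mul_eq_zero.mp this with h3 | h3
    · exact h2 h3
    · by_cases h00 : i = 0
      · subst h00
        have : (2 : K) * ((d + 1 : ℕ) : K) = 0 := by
          rw [← h3]; push_cast; ring
        rcases mul_eq_zero.mp this with h4 | h4
        · exact h2 h4
        · exact hK (d + 1) (by omega) (by omega) h4
      · apply sub_ne hK (2 * d + 1) (i - 1) (by omega) (by omega) (by omega)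
        rw [← h3, Nat.cast_sub (by omega)]; push_cast; ring
  · simp only [hi'.neg_one_pow] at he
    have : (2 : K) * ((i + 1 : ℕ) : K) = 0 := by
      push_cast at he ⊢
      linear_combination he
    rcases mul_eq_zero.mp this with h3 | h3
    · exact h2 h3
    · exact hK (i + 1) (by omega) (by omega) h3

end chain

end Pool.Agent.KS6_44.Leo
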