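import Pool.Agent.KS6_44.Leo2

namespace Pool.Agent.KS6_44.Leo

open Module

variable {K : Type*} [Field K] {V : Type*} [AddCommGroup V] [Module K V]

section halves

variable {x y z : End K V} {d : ℕ}

variable (hK : ∀ m : ℕ, 1 ≤ m → m ≤ 2 * d + 1 → (m : K) ≠ 0) (hd : 2 ≤ d)
  (h : Spin x y z ((2 * d + 1 : ℕ) : K)) {v0 : V} (h0 : x v0 = ((2 * d + 1 : ℕ) : K) • v0)
  (hv0 : v0 ≠ 0) (hdim : finrank K V = d + 1)

include hK hd h h0 hv0 hdim

theorem y_zig (j : ℕ) : y (Spin.zig y z v0 j) = (2⁻¹ : K) • Spin.zig y z v0 (j + 1) +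
    (2 * (((2 * d + 1 : ℕ) : K) + 1 - j) * j) • Spin.zig y z v0 (j - 1) := by
  have h2 := two_ne hK hd
  have e1 : y (Spin.zig y z v0 j) = (2⁻¹ : K) • ((y + z) (Spin.zig y z v0 j) +
      (y - z) (Spin.zig y z v0 j)) := by
    have : (y + z) (Spin.zig y z v0 j) + (y - z) (Spin.zig y z v0 j) =
        (2 : K) • y (Spin.zig y z v0 j) := by
      simp only [LinearMap.add_apply, LinearMap.sub_apply]; module
    rw [this, smul_smul, inv_mul_cancel₀ h2, one_smul]
  rcases j with _ | j
  · rw [e1]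
    simp only [Spin.zig]
    rw [Q_top hK hd h h0 hv0 hdim]
    simp
  · have e2 := h.zig_back h0 j
    rw [e1]
    have e3 : Spin.zig y z v0 (j + 1 + 1) = if Even (j + 1) then
      (y + z) (Spin.zig y z v0 (j + 1)) else (y - z) (Spin.zig y z v0 (j + 1)) := rfl
    rw [e3]
    by_cases hj : Even j
    · have hj' : ¬ Even (j + 1) := by simpa [Nat.even_add_one] using hj
      rw [if_pos hj] at e2
      rw [if_neg hj', e2, Nat.add_sub_cancel, smul_add, smul_smul, add_comm]
      congr 2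
      push_cast
      have : (2 : K)⁻¹ * 4 = 2 := by
        rw [show (4 : K) = 2 * 2 by norm_num, ← mul_assoc, inv_mul_cancel₀ h2, one_mul]
      linear_combination ((((2 * (d : K) + 1)) - j) * (j + 1)) * this
    · have hj' : Even (j + 1) := by simpa [Nat.even_add_one] using hj
      rw [if_neg hj] at e2
      rw [if_pos hj', e2, Nat.add_sub_cancel, smul_add, smul_smul]
      congr 2
      push_cast
      have : (2 : K)⁻¹ * 4 = 2 := by
        rw [show (4 : K) = 2 * 2 by norm_num, ← mul_assoc, inv_mul_cancel₀ h2, one_mul]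
      linear_combination ((((2 * (d : K) + 1)) - j) * (j + 1)) * this

theorem half_xy : Half x y := by
  have h2 := two_ne hK hd
  have hc := zig_chain hK hd h h0 hv0 hdim
  have hn : 0 < d + 1 := Nat.succ_pos d
  refine ⟨d + 1, hc.basis hn, hc.isDiag hn, ?_⟩
  have e := hc.eig (d + 1)
  obtain ⟨c, hcc⟩ := hc.eq_smul hn (u := Spin.zig y z v0 (d + 1)) (k := d) (by omega) (by
    rw [e]; congr 1
    rw [pow_succ]; push_cast; ring)
  apply hc.irrTri hn y (fun _ => 2⁻¹) (fun j => if j = d then 2⁻¹ * c else 0)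
    (fun j => 2 * (((2 * d + 1 : ℕ) : K) + 1 - j) * j)
  · intro j hj
    rw [y_zig hK hd h h0 hv0 hdim, if_neg (by omega)]
    simp
  · rw [Nat.add_sub_cancel, y_zig hK hd h h0 hv0 hdim, if_pos rfl, hcc, smul_smul]
  · simp
  · intro j _; exact inv_ne_zero h2
  · intro j hj hj2
    have h3 : ((2 * d + 1 : ℕ) : K) + 1 - j ≠ 0 := by
      have := sub_ne hK (2 * d + 1) (j - 1) (by omega) (by omega) (by omega)
      rw [Nat.cast_sub (by omega)] at this
      intro h9; apply this; rw [← h9]; push_cast; ring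
    exact mul_ne_zero (mul_ne_zero h2 h3) (hK j (by omega) (by omega))

theorem zz_lad (a : ℕ) : (z * z) (Spin.lad y z v0 a) =
    (-4⁻¹ : K) • Spin.lad y z v0 (a + 1) +
    (4⁻¹ * ((((2 * d + 1 : ℕ) : K) + (((2 * d + 1 : ℕ) : K) - 4 * a)) *
      (((2 * d + 1 : ℕ) : K) + 2 - (((2 * d + 1 : ℕ) : K) - 4 * a)) +
      (((2 * d + 1 : ℕ) : K) - (((2 * d + 1 : ℕ) : K) - 4 * a)) *
      (((2 * d + 1 : ℕ) : K) + 2 + (((2 * d + 1 : ℕ) : K) - 4 * a)))) • Spin.lad y z v0 a +
    (-4⁻¹ * (32 * (((2 * d + 1 : ℕ) : K) + 1 - 2 * a) * a *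
      (((2 * d + 1 : ℕ) : K) + 2 - 2 * a) * (2 * a - 1))) • Spin.lad y z v0 (a - 1) := by
  have h2 := two_ne hK hd
  have h4 : (4 : K) ≠ 0 := by
    rw [show (4 : K) = 2 * 2 by norm_num]; exact mul_ne_zero h2 h2
  have e0 : x (Spin.lad y z v0 a) = _ := h.lad_eig h0 a
  set u := Spin.lad y z v0 a with hu
  have e1 : (z * z) u = (4⁻¹ : K) • ((y + z) ((y + z) u) + (y - z) ((y - z) u)
      - (y - z) ((y + z) u) - (y + z) ((y - z) u)) := by
    have : (y + z) ((y + z) u) + (y - z) ((y - z) u)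
      - (y - z) ((y + z) u) - (y + z) ((y - z) u) = (4 : K) • (z * z) u := by
      simp only [LinearMap.add_apply, LinearMap.sub_apply, map_add, map_sub,
        Module.End.mul_apply]; module
    rw [this, smul_smul, inv_mul_cancel₀ h4, one_smul]
  have e2 : (y - z) ((y + z) u) = Spin.lad y z v0 (a + 1) := rfl
  have e3 : (y + z) ((y - z) u) = (32 * (((2 * d + 1 : ℕ) : K) + 1 - 2 * a) * a *
      (((2 * d + 1 : ℕ) : K) + 2 - 2 * a) * (2 * a - 1)) • Spin.lad y z v0 (a - 1) := by
    rcases a with _ | a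
    · have : u = v0 := rfl
      rw [this, Q_top hK hd h h0 hv0 hdim]
      simp
    · rw [hu, h.lad_back h0 a, Nat.add_sub_cancel]
      congr 1; push_cast; ring
  rw [e1, h.PP e0, h.QQ e0, e2, e3]
  module

theorem half_xzz : Half x (z * z) := by
  have h2 := two_ne hK hd
  have h4 : (4 : K) ≠ 0 := by
    rw [show (4 : K) = 2 * 2 by norm_num]; exact mul_ne_zero h2 h2
  have hc := lad_chain hK hd h h0 hv0 hdim
  have hn : 0 < d + 1 := Nat.succ_pos d
  refine ⟨d + 1, hc.basis hn, hc.isDiag hn, ?_⟩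
  have e : Spin.lad y z v0 (d + 1) = 0 := by
    apply hc.eq_zero hn (hc.eig (d + 1))
    intro i hi he
    have : (4 : K) * ((d + 1 : ℕ) - (i : K)) = 0 := by
      push_cast at he ⊢
      linear_combination he
    rcases mul_eq_zero.mp this with h3 | h3
    · exact h4 h3
    · exact sub_ne hK (d + 1) i (by omega) (by omega) (by omega) h3
  apply hc.irrTri hn (z * z) (fun _ => -4⁻¹)
    (fun a => 4⁻¹ * ((((2 * d + 1 : ℕ) : K) + (((2 * d + 1 : ℕ) : K) - 4 * a)) *
      (((2 * d + 1 : ℕ) : K) + 2 - (((2 * d + 1 : ℕ) : K) - 4 * a)) +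
      (((2 * d + 1 : ℕ) : K) - (((2 * d + 1 : ℕ) : K) - 4 * a)) *
      (((2 * d + 1 : ℕ) : K) + 2 + (((2 * d + 1 : ℕ) : K) - 4 * a))))
    (fun a => -4⁻¹ * (32 * (((2 * d + 1 : ℕ) : K) + 1 - 2 * a) * a *
      (((2 * d + 1 : ℕ) : K) + 2 - 2 * a) * (2 * a - 1)))
  · intro j hj
    exact zz_lad hK hd h h0 hv0 hdim j
  · rw [Nat.add_sub_cancel, zz_lad hK hd h h0 hv0 hdim, e, smul_zero, zero_add]
  · simp
  · intro j _; exact neg_ne_zero.mpr (inv_ne_zero h4)
  · intro a ha ha2
    have h32 : (32 : K) ≠ 0 := by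
      have : (32 : K) = 2 ^ 5 := by norm_num
      rw [this]; exact pow_ne_zero _ h2
    have h5 : ((2 * d + 1 : ℕ) : K) + 1 - 2 * a ≠ 0 := by
      have := sub_ne hK (2 * d + 1) (2 * a - 1) (by omega) (by omega) (by omega)
      rw [Nat.cast_sub (by omega)] at this
      intro h9; apply this; rw [← h9]; push_cast; ring
    have h6 : ((2 * d + 1 : ℕ) : K) + 2 - 2 * a ≠ 0 := by
      have := sub_ne hK (2 * d + 1) (2 * a - 2) (by omega) (by omega) (by omega)
      rw [Nat.cast_sub (by omega)] at this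
      intro h9; apply this; rw [← h9]; push_cast; ring
    have h7 : (2 * (a : K) - 1) ≠ 0 := by
      have := hK (2 * a - 1) (by omega) (by omega)
      rw [Nat.cast_sub (by omega)] at this
      intro h9; apply this; rw [← h9]; push_cast; ring
    exact mul_ne_zero (neg_ne_zero.mpr (inv_ne_zero h4))
      (mul_ne_zero (mul_ne_zero (mul_ne_zero (mul_ne_zero h32 h5)
        (hK a (by omega) (by omega))) h6) h7)

omit hv0 hdim h0 in
/-- matrix entries forced by the relations -/
theorem entries {n : ℕ} (b : Basis (Fin n) K V) (μ : Fin n → K)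
    (hμ : LinearMap.toMatrix b b x = Matrix.diagonal μ) (i j : Fin n) :
    (LinearMap.toMatrix b b y i j ≠ 0 → (μ i + μ j) ^ 2 = 4) ∧
    (LinearMap.toMatrix b b (z * z) i j ≠ 0 → (μ i - μ j) ^ 3 = 16 * (μ i - μ j)) := by
  have r1 : x * (x * y + y * x) + (x * y + y * x) * x = (4 : K) • y := by
    ext v
    simp only [LinearMap.add_apply, Module.End.mul_apply, LinearMap.smul_apply, map_add, h.xy,
      h.xz, map_sub, map_smul]
    module
  have r2 : x * (x * (x * (z * z) - (z * z) * x) - (x * (z * z) - (z * z) * x) * x) -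
      (x * (x * (z * z) - (z * z) * x) - (x * (z * z) - (z * z) * x) * x) * x =
      (16 : K) • (x * (z * z) - (z * z) * x) := by
    ext v
    simp only [LinearMap.sub_apply, Module.End.mul_apply, LinearMap.smul_apply, map_add, h.xy,
      h.xz, h.yz, map_sub, map_smul]
    module
  constructor
  · intro hne
    have := congrArg (fun f => LinearMap.toMatrix b b f i j) r1
    simp only [map_add, LinearMap.toMatrix_mul, hμ, Matrix.add_apply, Matrix.diagonal_mul,
      Matrix.mul_diagonal, map_smul, Matrix.smul_apply, smul_eq_mul, Matrix.mul_add,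
      Matrix.add_mul] at this
    apply mul_right_cancel₀ hne
    linear_combination this
  · intro hne
    generalize z * z = W at r2 hne
    have := congrArg (fun f => LinearMap.toMatrix b b f i j) r2
    simp only [map_sub, LinearMap.toMatrix_mul, hμ, Matrix.sub_apply, Matrix.diagonal_mul,
      Matrix.mul_diagonal, map_smul, Matrix.smul_apply, smul_eq_mul, Matrix.mul_sub,
      Matrix.sub_mul] at this
    apply mul_right_cancel₀ hne
    linear_combination this

theorem not_half₂ : ¬ Half₂ x y (z * z) := by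
  rintro ⟨n, b, hdiag, hy, hz⟩
  have h2 := two_ne hK hd
  have h3 := three_ne hK hd
  have hc := zig_chain hK hd h h0 hv0 hdim
  have hn : n = d + 1 := by
    rw [← hdim, finrank_eq_card_basis b, Fintype.card_fin]
  subst hn
  obtain ⟨μ, hμ⟩ : ∃ μ : Fin (d + 1) → K, LinearMap.toMatrix b b x = Matrix.diagonal μ :=
    ⟨(LinearMap.toMatrix b b x).diag, hdiag.diagonal_diag.symm⟩
  have hxb : ∀ i, x (b i) = μ i • b i := by
    intro i
    apply b.ext_elem
    intro k
    have := congrFun (congrFun hμ k) i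
    rw [LinearMap.toMatrix_apply] at this
    rw [this, map_smul, Basis.repr_self, Finsupp.smul_apply, Finsupp.single_apply,
      Matrix.diagonal_apply]
    by_cases hki : k = i
    · subst hki; simp
    · simp [hki, Ne.symm hki]
  have hinj : ∀ i j, i ≠ j → μ i ≠ μ j := by
    intro i j hij he
    obtain ⟨k, hk, e1, c, hc1⟩ := hc.exists_smul (Nat.succ_pos d) (b.ne_zero i) (hxb i)
    obtain ⟨k', hk', e2, c', hc2⟩ := hc.exists_smul (Nat.succ_pos d) (b.ne_zero j) (hxb j)
    have hkk : k = k' := hc.inj k k' hk hk' (by rw [← e1, ← e2, he])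
    subst hkk
    have hc0 : c ≠ 0 := by
      rintro rfl; rw [zero_smul] at hc1; exact b.ne_zero i hc1
    have : b j = (c' * c⁻¹) • b i := by
      rw [hc1, hc2, smul_smul, mul_assoc, inv_mul_cancel₀ hc0, mul_one]
    have h5 := congrArg (fun v => b.repr v j) this
    simp [Finsupp.single_apply, hij] at h5
  have i0 : (0 : ℕ) < d + 1 := by omega
  have i1 : (1 : ℕ) < d + 1 := by omega
  have i2 : (2 : ℕ) < d + 1 := by omega
  set a := μ ⟨0, i0⟩
  set e := μ ⟨1, i1⟩
  set f := μ ⟨2, i2⟩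
  have hae : a ≠ e := hinj _ _ (by simp)
  have hef : e ≠ f := hinj _ _ (by simp)
  have haf : a ≠ f := hinj _ _ (by simp)
  have q1 : (a + e) ^ 2 = 4 :=
    (entries hK hd h b μ hμ ⟨0, i0⟩ ⟨1, i1⟩).1 (hy.2 _ _ (by simp))
  have q2 : (e + f) ^ 2 = 4 :=
    (entries hK hd h b μ hμ ⟨1, i1⟩ ⟨2, i2⟩).1 (hy.2 _ _ (by simp))
  have q3 : (a - e) ^ 3 = 16 * (a - e) :=
    (entries hK hd h b μ hμ ⟨0, i0⟩ ⟨1, i1⟩).2 (hz.2 _ _ (by simp))
  have q4 : (e - f) ^ 3 = 16 * (e - f) :=
    (entries hK hd h b μ hμ ⟨1, i1⟩ ⟨2, i2⟩).2 (hz.2 _ _ (by simp))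
  have p3 : (a - e) ^ 2 = 16 := by
    apply mul_right_cancel₀ (sub_ne_zero.mpr hae); linear_combination q3
  have p4 : (e - f) ^ 2 = 16 := by
    apply mul_right_cancel₀ (sub_ne_zero.mpr hef); linear_combination q4
  have s1 : (a - f) * (a + f - 2 * e) = 0 := by linear_combination p3 - p4
  have s2 : (a - f) * (a + f + 2 * e) = 0 := by linear_combination q1 - q2
  have t1 : a + f - 2 * e = 0 := (mul_eq_zero.mp s1).resolve_left (sub_ne_zero.mpr haf)
  have t2 : a + f + 2 * e = 0 := (mul_eq_zero.mp s2).resolve_left (sub_ne_zero.mpr haf)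
  have t3 : e = 0 := by
    have : (2 : K) * 2 * e = 0 := by linear_combination t2 - t1
    exact (mul_eq_zero.mp this).resolve_left (mul_ne_zero h2 h2)
  have t4 : (2 : K) * 2 * 3 = 0 := by
    rw [t3] at p3 q1; linear_combination q1 - p3
  exact mul_ne_zero (mul_ne_zero h2 h2) h3 t4

end halves

end Pool.Agent.KS6_44.Leo
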