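import Pool.Agent.KS6_44.Leo3

namespace Pool.Agent.KS6_44.Leo

open Module

variable {K : Type*} [Field K] {V : Type*} [AddCommGroup V] [Module K V]

/-- sign `(-1) ^ k` -/
def sg (K : Type*) [Field K] (k : ℤ) : K := if Even k then 1 else -1

/-- the sign `(-1) ^ (k (k + 1) / 2)` -/
def ep (K : Type*) [Field K] (k : ℤ) : K := if k % 4 = 0 ∨ k % 4 = 3 then 1 else -1

theorem sg_succ (k : ℤ) : sg K (k + 1) = - sg K k := by
  unfold sg
  by_cases h : Even k
  · rw [if_pos h, if_neg (by rw [Int.even_add_one]; simpa using h)]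
  · rw [if_neg h, if_pos (by rw [Int.even_add_one]; simpa using h), neg_neg]

theorem sg_pred (k : ℤ) : sg K (k - 1) = - sg K k := by
  have := sg_succ (K := K) (k - 1)
  rw [sub_add_cancel] at this
  rw [this, neg_neg]

theorem sg_sq (k : ℤ) : sg K k * sg K k = 1 := by
  unfold sg; split_ifs <;> simp

theorem sg_refl (k : ℤ) : sg K (-1 - k) = - sg K k := by
  have h1 : Even (-1 - k) ↔ ¬ Even k := by
    rw [Int.even_iff, Int.even_iff]; omega
  unfold sg
  by_cases h : Even k
  · rw [if_pos h, if_neg (by rw [h1]; simpa using h)]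
  · rw [if_neg h, if_pos (by rw [h1]; exact h), neg_neg]

theorem ep_refl (k : ℤ) : ep K (-1 - k) = ep K k := by
  unfold ep
  congr 1
  simp only [eq_iff_iff]
  omega

theorem ep_succ (k : ℤ) : ep K (k + 1) = - (sg K k * ep K k) := by
  unfold ep sg
  have h4 : k % 4 = 0 ∨ k % 4 = 1 ∨ k % 4 = 2 ∨ k % 4 = 3 := by omega
  rcases h4 with h | h | h | h
  · rw [if_neg (by omega), if_pos (by rw [Int.even_iff]; omega), if_pos (by omega)]; simp
  · rw [if_neg (by omega), if_neg (by rw [Int.even_iff]; omega), if_neg (by omega)]; simp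
  · rw [if_pos (by omega), if_pos (by rw [Int.even_iff]; omega), if_neg (by omega)]; simp
  · rw [if_pos (by omega), if_neg (by rw [Int.even_iff]; omega), if_pos (by omega)]; simp

theorem ep_pred (k : ℤ) : ep K (k - 1) = sg K k * ep K k := by
  have h := ep_succ (K := K) (k - 1)
  rw [sub_add_cancel, sg_pred] at h
  rw [h]
  have := sg_sq (K := K) k
  linear_combination (-ep K (k - 1)) * this

theorem ep_sq (k : ℤ) : ep K k * ep K k = 1 := by
  unfold ep; split_ifs <;> simp

section model

variable {d : ℕ} (b : Basis (Fin (d + 1)) K V)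

/-- the symmetric family of vectors indexed by the integers -/
noncomputable def W (k : ℤ) : V :=
  if h : 0 ≤ k ∧ k ≤ d then b ⟨k.toNat, by omega⟩
  else if h' : 0 ≤ -1 - k ∧ -1 - k ≤ d then b ⟨(-1 - k).toNat, by omega⟩ else 0

theorem W_refl (k : ℤ) : W b (-1 - k) = W b k := by
  unfold W
  by_cases h : 0 ≤ k ∧ k ≤ d
  · rw [dif_pos h, dif_neg (by omega), dif_pos (by omega)]
    congr 2; simp
  · by_cases h' : 0 ≤ -1 - k ∧ -1 - k ≤ d
    · rw [dif_pos h', dif_neg h, dif_pos h']
    · rw [dif_neg h', dif_neg (by omega), dif_neg h, dif_neg h']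

theorem W_fin (i : Fin (d + 1)) : W b (i : ℕ) = b i := by
  unfold W
  have := i.2
  rw [dif_pos (by omega)]
  congr 1

theorem W_big (k : ℤ) (hk : (d : ℤ) < k) : W b k = 0 := by
  unfold W
  rw [dif_neg (by omega), dif_neg (by omega)]

/-- a general principle: formulas for the first `d + 1` vectors extend to all integers -/
theorem extend (T : End K V) (F : ℤ → V) (hF : ∀ k, F (-1 - k) = F k)
    (hbig : ∀ k : ℤ, (d : ℤ) < k → F k = 0)
    (h : ∀ i : Fin (d + 1), T (b i) = F (i : ℕ)) (k : ℤ) : T (W b k) = F k := by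
  have pos : ∀ k : ℤ, 0 ≤ k → T (W b k) = F k := by
    intro k hk
    by_cases hkd : k ≤ d
    · obtain ⟨i, rfl⟩ : ∃ i : Fin (d + 1), k = (i : ℕ) := by
        refine ⟨⟨k.toNat, by omega⟩, ?_⟩
        simp; omega
      rw [W_fin, h]
    · rw [W_big b k (by omega), hbig k (by omega), map_zero]
  by_cases hk : 0 ≤ k
  · exact pos k hk
  · rw [← W_refl, ← hF]
    exact pos _ (by omega)

noncomputable def X : End K V := b.constr K (fun i =>
  ((d : K) - (i : ℕ) + 1) • W b ((i : ℕ) - 1) + ((d : K) + (i : ℕ) + 2) • W b ((i : ℕ) + 1))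

noncomputable def Y : End K V := b.constr K (fun i =>
  sg K (i : ℕ) • (((d : K) - (i : ℕ) + 1) • W b ((i : ℕ) - 1) -
    ((d : K) + (i : ℕ) + 2) • W b ((i : ℕ) + 1)))

noncomputable def Z : End K V := b.constr K (fun i =>
  (sg K (i : ℕ) * (2 * (i : ℕ) + 1)) • W b (i : ℕ))

noncomputable def D : End K V := b.constr K (fun i => ep K (i : ℕ) • W b (i : ℕ))

theorem X_W (k : ℤ) : X b (W b k) =
    ((d : K) - k + 1) • W b (k - 1) + ((d : K) + k + 2) • W b (k + 1) := by
  apply extend b (X b) (fun k => ((d : K) - k + 1) • W b (k - 1) +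
    ((d : K) + k + 2) • W b (k + 1))
  · intro k
    have e1 : (-1 - k - 1 : ℤ) = -1 - (k + 1) := by ring
    have e2 : (-1 - k + 1 : ℤ) = -1 - (k - 1) := by ring
    rw [e1, e2, W_refl, W_refl]
    push_cast
    module
  · intro k hk
    rw [W_big b (k + 1) (by omega)]
    by_cases h : k = d + 1
    · subst h; simp
    · rw [W_big b (k - 1) (by omega)]; simp
  · intro i
    unfold X
    rw [Basis.constr_basis]
    simp

theorem Y_W (k : ℤ) : Y b (W b k) =
    sg K k • (((d : K) - k + 1) • W b (k - 1) - ((d : K) + k + 2) • W b (k + 1)) := by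
  apply extend b (Y b) (fun k => sg K k • (((d : K) - k + 1) • W b (k - 1) -
    ((d : K) + k + 2) • W b (k + 1)))
  · intro k
    have e1 : (-1 - k - 1 : ℤ) = -1 - (k + 1) := by ring
    have e2 : (-1 - k + 1 : ℤ) = -1 - (k - 1) := by ring
    rw [e1, e2, W_refl, W_refl, sg_refl]
    push_cast
    module
  · intro k hk
    rw [W_big b (k + 1) (by omega)]
    by_cases h : k = d + 1
    · subst h; simp
    · rw [W_big b (k - 1) (by omega)]; simp
  · intro i
    unfold Y
    rw [Basis.constr_basis]
    simp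

theorem Z_W (k : ℤ) : Z b (W b k) = (sg K k * (2 * k + 1)) • W b k := by
  apply extend b (Z b) (fun k => (sg K k * (2 * k + 1)) • W b k)
  · intro k
    rw [W_refl, sg_refl]
    congr 1
    push_cast
    ring
  · intro k hk
    rw [W_big b k hk, smul_zero]
  · intro i
    unfold Z
    rw [Basis.constr_basis]
    simp

theorem D_W (k : ℤ) : D b (W b k) = ep K k • W b k := by
  apply extend b (D b) (fun k => ep K k • W b k)
  · intro k
    rw [W_refl, ep_refl]
  · intro k hk
    rw [W_big b k hk, smul_zero]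
  · intro i
    unfold D
    rw [Basis.constr_basis]

theorem ext_W {S T : End K V} (h : ∀ k : ℤ, S (W b k) = T (W b k)) (v : V) : S v = T v := by
  have : S = T := by
    apply b.ext
    intro i
    rw [← W_fin b i]; exact h _
  rw [this]

theorem D_invol (v : V) : D b (D b v) = v := by
  refine ext_W b (S := D b * D b) (T := 1) ?_ v
  intro k
  simp only [Module.End.mul_apply, Module.End.one_apply]
  rw [D_W, map_smul, D_W, smul_smul, ep_sq, one_smul]

theorem YD (v : V) : Y b (D b v) = D b (X b v) := by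
  refine ext_W b (S := Y b * D b) (T := D b * X b) ?_ v
  intro k
  simp only [Module.End.mul_apply]
  rw [D_W, map_smul, Y_W, X_W, map_add, map_smul, map_smul, D_W, D_W, ep_succ, ep_pred]
  module

theorem XD (v : V) : X b (D b v) = D b (Y b v) := by
  have h := YD b (D b v)
  rw [D_invol] at h
  rw [h, D_invol]

theorem ZD (v : V) : Z b (D b v) = D b (Z b v) := by
  refine ext_W b (S := Z b * D b) (T := D b * Z b) ?_ v
  intro k
  simp only [Module.End.mul_apply]
  rw [D_W, map_smul, Z_W, map_smul, D_W, smul_comm]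

theorem spin : Spin (X b) (Y b) (Z b) ((2 * d + 1 : ℕ) : K) where
  xy := by
    intro v
    refine ext_W b (S := X b * Y b) (T := (2 : K) • Z b - Y b * X b) ?_ v
    intro k
    have hs := sg_sq (K := K) k
    simp only [Module.End.mul_apply, LinearMap.sub_apply, LinearMap.smul_apply, X_W, Y_W, Z_W,
      map_add, map_sub, map_smul, sg_succ, sg_pred]
    push_cast
    have e1 : (k - 1 + 1 : ℤ) = k := by ring
    have e2 : (k + 1 - 1 : ℤ) = k := by ring
    rw [e1, e2]
    module
  xz := by
    intro v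
    refine ext_W b (S := X b * Z b) (T := (2 : K) • Y b - Z b * X b) ?_ v
    intro k
    simp only [Module.End.mul_apply, LinearMap.sub_apply, LinearMap.smul_apply, X_W, Y_W, Z_W,
      map_add, map_sub, map_smul, sg_succ, sg_pred]
    push_cast
    module
  yz := by
    intro v
    refine ext_W b (S := Y b * Z b) (T := (2 : K) • X b - Z b * Y b) ?_ v
    intro k
    have hs : ∀ (c : K) (u : V), (sg K k * sg K k * c) • u = c • u := by
      intro c u; rw [sg_sq, one_mul]
    simp only [Module.End.mul_apply, LinearMap.sub_apply, LinearMap.smul_apply, X_W, Y_W, Z_W,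
      map_add, map_sub, map_smul, sg_succ, sg_pred]
    push_cast
    have h2 : sg K k * sg K k = 1 := sg_sq k
    rw [← sub_eq_zero]
    have : ∀ (A B : V) (p q : K), A = B → A - B = 0 := fun A B _ _ h => sub_eq_zero.mpr h
    calc _ = ((2 * (sg K k * sg K k) - 2) * ((d : K) - k + 1)) • W b (k - 1) +
          ((2 * (sg K k * sg K k) - 2) * ((d : K) + k + 2)) • W b (k + 1) := by module
      _ = 0 := by rw [h2]; simp
  cas := by
    intro v
    refine ext_W b (S := Y b * Y b + Z b * Z b)
      (T := (((2 * d + 1 : ℕ) : K) * (((2 * d + 1 : ℕ) : K) + 2)) • (1 : End K V) - X b * X b) ?_ v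
    intro k
    simp only [Module.End.mul_apply, LinearMap.sub_apply, LinearMap.smul_apply,
      LinearMap.add_apply, Module.End.one_apply, X_W, Y_W, Z_W,
      map_add, map_sub, map_smul, sg_succ, sg_pred]
    push_cast
    have e1 : (k - 1 + 1 : ℤ) = k := by ring
    have e2 : (k + 1 - 1 : ℤ) = k := by ring
    rw [e1, e2]
    have h2 : sg K k * sg K k = 1 := sg_sq k
    rw [← sub_eq_zero]
    calc _ = ((1 - (sg K k * sg K k)) * (((d : K) - k + 1) * (d - k + 2))) • W b (k - 1 - 1) +
          (((sg K k * sg K k) - 1) * (2 * ((d : K) + 1) ^ 2 + 2 * (k : K) ^ 2 + 2 * k)) • W b k +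
          ((1 - (sg K k * sg K k)) * (((d : K) + k + 2) * (d + k + 3))) • W b (k + 1 + 1) := by
            module
      _ = 0 := by rw [h2]; simp

end model

end Pool.Agent.KS6_44.Leo
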