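import Pool.Agent.KS6_44.Leo4

namespace Pool.Agent.KS6_44.Leo

open Module Finset

variable {K : Type*} [Field K] {V : Type*} [AddCommGroup V] [Module K V]

section model

variable {d : ℕ} (b : Basis (Fin (d + 1)) K V)

theorem top_sum (M : ℕ) : ∑ k ∈ range M, X b (W b (k : ℤ)) =
    ((2 * d + 1 : ℕ) : K) • ∑ k ∈ range M, W b (k : ℤ) - ((d : K) - M + 1) • W b ((M : ℤ) - 1) +
      ((d : K) + M + 1) • W b (M : ℤ) := by
  induction M with
  | zero =>
    have : W b (((0 : ℕ) : ℤ) - 1) = W b ((0 : ℕ) : ℤ) := by
      rw [← W_refl]; congr 1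
    rw [this]
    simp
  | succ M ih =>
    rw [sum_range_succ, sum_range_succ, ih, X_W, smul_add]
    have e1 : (((M + 1 : ℕ) : ℤ) - 1) = M := by push_cast; ring
    have e2 : ((M + 1 : ℕ) : ℤ) = (M : ℤ) + 1 := by push_cast; ring
    rw [e1, e2]
    push_cast
    module

theorem top_eig : X b (∑ k ∈ range (d + 1), W b (k : ℤ)) =
    ((2 * d + 1 : ℕ) : K) • ∑ k ∈ range (d + 1), W b (k : ℤ) := by
  rw [map_sum, top_sum, W_big b ((d + 1 : ℕ) : ℤ) (by push_cast; omega)]
  push_cast
  simp

theorem top_ne : ∑ k ∈ range (d + 1), W b (k : ℤ) ≠ 0 := by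
  intro h
  have h1 : ∑ i : Fin (d + 1), b i = 0 := by
    rw [← h, ← Fin.sum_univ_eq_sum_range (fun k => W b (k : ℤ)) (d + 1)]
    exact sum_congr rfl (fun i _ => (W_fin b i).symm)
  have h2 := congrArg (fun v => b.repr v 0) h1
  simp [Finsupp.single_apply] at h2

variable (hK : ∀ m : ℕ, 1 ≤ m → m ≤ 2 * d + 1 → (m : K) ≠ 0) (hd : 2 ≤ d)

include hK hd

theorem zz_chain : Chain (d + 1) (Z b * Z b) (fun j : ℕ => W b (j : ℤ))
    (fun j => (2 * (j : K) + 1) ^ 2) where
  dim := by rw [finrank_eq_card_basis b, Fintype.card_fin]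
  eig := by
    intro j
    simp only [Module.End.mul_apply]
    rw [Z_W, map_smul, Z_W, smul_smul]
    congr 1
    have h := sg_sq (K := K) (j : ℤ)
    push_cast
    linear_combination (2 * (j : K) + 1) ^ 2 * h
  ne := by
    intro j hj
    have := W_fin b ⟨j, hj⟩
    simp only at this
    rw [this]; exact b.ne_zero _
  inj := by
    intro i j hi hj hij
    by_contra hne
    have h2 := two_ne hK hd
    have : (2 : K) * 2 * ((i : K) - j) * ((i + j + 1 : ℕ) : K) = 0 := by
      push_cast; linear_combination hij
    rcases mul_eq_zero.mp this with h3 | h3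
    · rcases mul_eq_zero.mp h3 with h4 | h4
      · exact mul_ne_zero h2 h2 h4
      · exact sub_ne hK i j (by omega) (by omega) hne h4
    · exact hK (i + j + 1) (by omega) (by omega) h3

theorem half_zzx : Half (Z b * Z b) (X b) := by
  have hc := zz_chain b hK hd
  have hn : 0 < d + 1 := Nat.succ_pos d
  refine ⟨d + 1, hc.basis hn, hc.isDiag hn, ?_⟩
  apply hc.irrTri hn (X b) (fun j => (d : K) + j + 2) (fun j => if j = 0 then (d : K) + 1 else 0)
    (fun j => if j = 0 then 0 else (d : K) - j + 1)
  · intro j hj
    rw [X_W]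
    rcases j with _ | j
    · have : W b (((0 : ℕ) : ℤ) - 1) = W b ((0 : ℕ) : ℤ) := by
        rw [← W_refl]; congr 1
      rw [this]
      simp only [if_pos]
      push_cast
      module
    · have e1 : (((j + 1 : ℕ) : ℤ) - 1) = ((j + 1 - 1 : ℕ) : ℤ) := by
        push_cast [Nat.add_sub_cancel]; ring
      rw [if_neg (Nat.succ_ne_zero j), if_neg (Nat.succ_ne_zero j), e1]
      push_cast
      module
  · simp only [Nat.add_sub_cancel]
    rw [X_W, W_big b ((d : ℤ) + 1) (by omega), if_neg (by omega), if_neg (by omega)]
    have e1 : ((d : ℤ) - 1) = ((d - 1 : ℕ) : ℤ) := by omega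
    rw [e1]
    push_cast
    simp
  · simp
  · intro j hj
    have := hK (d + j + 2) (by omega) (by omega)
    push_cast at this
    exact this
  · intro j hj hj2
    rw [if_neg (by omega)]
    have := sub_ne hK (d + 1) j (by omega) (by omega) (by omega)
    intro h9; apply this; rw [← h9]; push_cast; ring

theorem model_pairs :
    LeonardPair (X b) (Y b) ∧ LeonardPair (X b) (Z b * Z b) ∧ LeonardPair (Y b) (Z b * Z b) ∧
      ¬ Half₂ (X b) (Y b) (Z b * Z b) ∧ ¬ Half₂ (Y b) (X b) (Z b * Z b) := by
  have hs := spin b
  have hdim : finrank K V = d + 1 := by rw [finrank_eq_card_basis b, Fintype.card_fin]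
  have hxy := half_xy hK hd hs (top_eig b) (top_ne b) hdim
  have hxz := half_xzz hK hd hs (top_eig b) (top_ne b) hdim
  have hzx := half_zzx b hK hd
  let DD : V ≃ₗ[K] V := LinearEquiv.ofInvolutive (D b) (D_invol b)
  have hD : ∀ v, DD v = D b v := fun v => rfl
  have hzz : ∀ v, (Z b * Z b) (DD v) = DD ((Z b * Z b) v) := by
    intro v
    simp only [hD, Module.End.mul_apply, ZD]
  have hno := not_half₂ hK hd hs (top_eig b) (top_ne b) hdim
  refine ⟨⟨hxy, ?_⟩, ⟨hxz, hzx⟩, ⟨?_, ?_⟩, hno, fun h => hno ?_⟩
  · exact hxy.conj DD (fun v => by simp only [hD, YD]) (fun v => by simp only [hD, XD])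
  · exact hxz.conj DD (fun v => by simp only [hD, YD]) hzz
  · exact hzx.conj DD hzz (fun v => by simp only [hD, YD])
  · exact h.conj DD (fun v => by simp only [hD, XD]) (fun v => by simp only [hD, YD]) hzz

end model

/-! ### dimension at most two -/

section small

theorem small_irr {n : ℕ} (hn : n < 2) (M : Matrix (Fin n) (Fin n) K) : IrrTri M := by
  constructor
  · intro i j h
    have := i.2; have := j.2; omega
  · intro i j h
    have := i.2; have := j.2; omega

/-- In dimension two: a basis adapted to `(A, C)` excludes common eigenvectors. -/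
theorem no_common {A C : End K V} (b : Basis (Fin 2) K V) (hns : ∀ c : K, A ≠ c • 1)
    (h1 : (LinearMap.toMatrix b b A).IsDiag) (h2 : IrrTri (LinearMap.toMatrix b b C))
    (u : V) (hu : u ≠ 0) (a c : K) (ha : A u = a • u) (hc : C u = c • u) : False := by
  have hA : ∀ i, A (b i) = LinearMap.toMatrix b b A i i • b i := by
    intro i
    apply b.ext_elem
    intro k
    rw [map_smul, Basis.repr_self, Finsupp.smul_apply, Finsupp.single_apply,
      ← LinearMap.toMatrix_apply]
    by_cases hki : i = k
    · subst hki; simp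
    · rw [if_neg hki, smul_zero]; exact h1 (Ne.symm hki)
  set μ : Fin 2 → K := fun i => LinearMap.toMatrix b b A i i with hμ
  have hu' : u = b.repr u 0 • b 0 + b.repr u 1 • b 1 := by
    conv_lhs => rw [← b.sum_repr u]
    rw [Fin.sum_univ_two]
  set p := b.repr u 0 with hp
  set q := b.repr u 1 with hq
  have hA0 : A (b 0) = μ 0 • b 0 := hA 0
  have hA1 : A (b 1) = μ 1 • b 1 := hA 1
  have e : A u = (p * μ 0) • b 0 + (q * μ 1) • b 1 := by
    conv_lhs => rw [hu']
    rw [map_add, map_smul, map_smul, hA0, hA1, smul_smul, smul_smul]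
  have e2 : A u = (a * p) • b 0 + (a * q) • b 1 := by
    rw [ha]
    conv_lhs => rw [hu']
    rw [smul_add, smul_smul, smul_smul]
  have c0 : p * μ 0 = a * p := by
    have := congrArg (fun v => b.repr v 0) (e.symm.trans e2)
    simpa using this
  have c1 : q * μ 1 = a * q := by
    have := congrArg (fun v => b.repr v 1) (e.symm.trans e2)
    simpa using this
  by_cases hp0 : p = 0
  · have hq0 : q ≠ 0 := by
      intro h; apply hu; rw [hu', hp0, h]; simp
    have hub : u = q • b 1 := by rw [hu', hp0]; simp
    have : C (b 1) = c • b 1 := by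
      have h3 : q • C (b 1) = q • (c • b 1) := by
        rw [← map_smul, ← hub, hc, hub, smul_comm]
      exact smul_right_injective V hq0 h3
    have h4 := h2.2 0 1 (by simp)
    rw [LinearMap.toMatrix_apply, this] at h4
    simp at h4
  · by_cases hq0 : q = 0
    · have hub : u = p • b 0 := by rw [hu', hq0]; simp
      have : C (b 0) = c • b 0 := by
        have h3 : p • C (b 0) = p • (c • b 0) := by
          rw [← map_smul, ← hub, hc, hub, smul_comm]
        exact smul_right_injective V hp0 h3
      have h4 := h2.2 1 0 (by simp)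
      rw [LinearMap.toMatrix_apply, this] at h4
      simp at h4
    · have m0 : μ 0 = a := by
        apply mul_left_cancel₀ hp0; rw [c0, mul_comm]
      have m1 : μ 1 = a := by
        apply mul_left_cancel₀ hq0; rw [c1, mul_comm]
      apply hns a
      apply b.ext
      intro i
      fin_cases i
      · simp [hA0, m0]
      · simp [hA1, m1]

theorem half₂_of_half {A B C : End K V} (hdim : finrank K V ≤ 2) (hAB : LeonardPair A B)
    (hAC : LeonardPair A C) : Half₂ A B C := by
  obtain ⟨⟨n, b, h1, h2⟩, ⟨n1, b1, h3, h4⟩⟩ := hAB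
  obtain ⟨⟨n', b', h1', h2'⟩, -⟩ := hAC
  have hn : n = finrank K V := by rw [finrank_eq_card_basis b, Fintype.card_fin]
  have hn' : n' = finrank K V := by rw [finrank_eq_card_basis b', Fintype.card_fin]
  have hn1 : n1 = finrank K V := by rw [finrank_eq_card_basis b1, Fintype.card_fin]
  refine ⟨n, b, h1, h2, ?_⟩
  by_cases hlt : n < 2
  · exact small_irr hlt _
  · have e2 : n = 2 := by omega
    have e2' : n' = 2 := by omega
    have e21 : n1 = 2 := by omega
    clear hn hn' hn1
    subst e2 e2' e21
    have hns : ∀ c : K, A ≠ c • 1 := by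
      intro c hc
      have h5 := h4.2 0 1 (by simp)
      rw [LinearMap.toMatrix_apply, hc] at h5
      simp at h5
    have hA : ∀ i, A (b i) = LinearMap.toMatrix b b A i i • b i := by
      intro i
      apply b.ext_elem
      intro k
      rw [map_smul, Basis.repr_self, Finsupp.smul_apply, Finsupp.single_apply,
        ← LinearMap.toMatrix_apply]
      by_cases hki : i = k
      · subst hki; simp
      · rw [if_neg hki, smul_zero]; exact h1 (Ne.symm hki)
    have key : ∀ i j : Fin 2, i ≠ j → LinearMap.toMatrix b b C i j ≠ 0 := by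
      intro i j hij h0
      have hC : C (b j) = LinearMap.toMatrix b b C j j • b j := by
        apply b.ext_elem
        intro k
        rw [map_smul, Basis.repr_self, Finsupp.smul_apply, Finsupp.single_apply,
          ← LinearMap.toMatrix_apply]
        by_cases hkj : j = k
        · subst hkj; simp
        · have : k = i := by
            have := i.2; have := j.2; have := k.2
            ext
            have h7 : (i : ℕ) ≠ j := fun h => hij (Fin.ext h)
            have h8 : (j : ℕ) ≠ k := fun h => hkj (Fin.ext h)
            omega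
          rw [if_neg hkj, smul_zero, this]; exact h0
      exact no_common b' hns h1' h2' (b j) (b.ne_zero j) _ _ (hA j) hC
    constructor
    · intro i j h
      have := i.2; have := j.2; omega
    · intro i j h
      apply key
      rintro rfl
      omega

end small

end Pool.Agent.KS6_44.Leo
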